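import Pool.Agent.H14.RG.Targets

/-!
# The derivatives of maps to a closed submanifold are tangent
-/

set_option autoImplicit false

namespace Pool.Agent.H36.RG

open MeasureTheory Metric Set Filter Topology Pool.Agent.H87.SN Pool.Agent.H14.RG
open scoped ContDiff RealInnerProductSpace

/-- The derivatives are tangent near each point of the submanifold. -/
theorem tng_loc (hTAK : T_TAK) (hCUT : T_CUT) (hZER : T_ZER) {n m k : ℕ} {N : Set (E m)}
    {u : E n → E m} {G : E n → E n →L[ℝ] E m} (hN : IsClosedSubmanifold k N) (hW : IsW12 u G)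
    (hu : ∀ᵐ x ∂(volume.restrict (ball (0 : E n) 2)), u x ∈ N) (p : E m) (hp : p ∈ N) :
    ∃ V : Set (E m), IsOpen V ∧ p ∈ V ∧ ∀ᵐ x ∂(volume.restrict (ball (0 : E n) 2)),
      u x ∈ V → ∀ v, IsTangent N (u x) (G x v) := by
  obtain ⟨c, U, F, -, hpU, hF⟩ := hN.loc p hp
  obtain ⟨V, g, χ, hVo, hpV, hVU, hg1, hg2, hg3, hg4, hg5⟩ :=
    hCUT m (E c) U F hF.isOpen hF.smooth p hpU
  have hg0 : ∀ q ∈ N, g q = 0 := by
    intro q hq
    by_cases hqU : q ∈ U
    · rw [hg4 q hqU, (hF.zero q hqU).1 hq, smul_zero]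
    · exact hg5 q hqU
  refine ⟨V, hVo, hpV, ?_⟩
  filter_upwards [hu, hZER n m c N u G hW hu g hg1 hg2 hg0] with x hx hz hxV v
  have h1 : fderiv ℝ g (u x) = fderiv ℝ F (u x) := by
    refine Filter.EventuallyEq.fderiv_eq ?_
    filter_upwards [hVo.mem_nhds hxV] with q hq
    exact hg3 q hq
  refine hTAK m c N U F hF (u x) hx (hVU hxV) (G x v) ?_
  rw [← h1]
  exact hz v

/-- **The derivatives are tangent.** -/
theorem pf_TNG (hTAK : T_TAK) (hCUT : T_CUT) (hZER : T_ZER) : T_TNG := by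
  intro n m k N u G hN hW hu
  have h1 : ∀ᵐ x ∂(volume.restrict (ball (0 : E n) 2)),
      u x ∈ N → ∀ v, IsTangent N (u x) (G x v) := by
    refine hN.compact.induction_on
      (p := fun s => ∀ᵐ x ∂(volume.restrict (ball (0 : E n) 2)),
        u x ∈ s → ∀ v, IsTangent N (u x) (G x v)) ?_ ?_ ?_ ?_
    · exact Filter.Eventually.of_forall fun x hx => absurd hx (notMem_empty _)
    · intro s t hst ht
      filter_upwards [ht] with x hx hxs
      exact hx (hst hxs)
    · intro s t hs ht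
      filter_upwards [hs, ht] with x hx1 hx2 hx
      rcases hx with h | h
      · exact hx1 h
      · exact hx2 h
    · intro p hp
      obtain ⟨V, hVo, hpV, hV⟩ := tng_loc hTAK hCUT hZER hN hW hu p hp
      exact ⟨V, mem_nhdsWithin_of_mem_nhds (hVo.mem_nhds hpV), hV⟩
  filter_upwards [h1, hu] with x hx1 hx2
  exact hx1 hx2

end Pool.Agent.H36.RG
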