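import Pool.Agent.H48.RG.Targets

/-!
# The energy of the cut off function
-/

set_option autoImplicit false

namespace Pool.Agent.H36.RG

open MeasureTheory Metric Set Filter Topology Pool.Agent.H87.SN Pool.Agent.H48.RG
open scoped ContDiff RealInnerProductSpace ENNReal

noncomputable section

/-- The integral of a derivative of a test function vanishes. -/
theorem integral_fderiv_zero {n : ℕ} {φ : E n → ℝ} (h1 : ContDiff ℝ ∞ φ)
    (h2 : HasCompactSupport φ) (v : E n) : ∫ x, fderiv ℝ φ x v = 0 := by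
  have hd : Continuous fun x => fderiv ℝ φ x v :=
    (h1.continuous_fderiv (by simp)).clm_apply continuous_const
  have hdc : HasCompactSupport fun x => fderiv ℝ φ x v :=
    h2.fderiv_apply (𝕜 := ℝ) v
  have h3 := integral_mul_fderiv_eq_neg_fderiv_mul_of_integrable (μ := (volume : Measure (E n)))
    (f := fun _ : E n => (1 : ℝ)) (g := φ) (v := v) (by simp)
    (by simpa using hd.integrable_of_hasCompactSupport hdc)
    (by simpa using h1.continuous.integrable_of_hasCompactSupport h2)
    (fun x _ => differentiableAt_const _)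
    (fun x _ => (h1.differentiable (by simp)).differentiableAt)
  simpa using h3

/-- A constant is subtracted. -/
theorem wb_sub_const {n : ℕ} {f : E n → ℝ} {D : E n → E n} (h : WB (ball (0 : E n) 1) f D)
    (c : ℝ) : WB (ball (0 : E n) 1) (fun x => f x - c) D := by
  have : IsFiniteMeasure (volume.restrict (ball (0 : E n) 1)) :=
    ⟨by rw [Measure.restrict_apply_univ]; exact measure_ball_lt_top⟩
  obtain ⟨B, hB⟩ := h.bd
  refine ⟨h.ms.sub aestronglyMeasurable_const, ⟨B + |c|, ?_⟩, h.d2, ?_⟩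
  · filter_upwards [hB] with x hx
    exact (abs_sub _ _).trans (add_le_add hx le_rfl)
  · intro φ hφ v
    have hd : Continuous fun x => fderiv ℝ φ x v :=
      (hφ.1.continuous_fderiv (by simp)).clm_apply continuous_const
    have hdc : HasCompactSupport fun x => fderiv ℝ φ x v := hφ.2.1.fderiv_apply (𝕜 := ℝ) v
    have hi1 : Integrable fun x => fderiv ℝ φ x v := hd.integrable_of_hasCompactSupport hdc
    have hfi : Integrable f (volume.restrict (ball (0 : E n) 1)) := by
      refine Integrable.of_bound h.ms B ?_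
      filter_upwards [hB] with x hx
      exact hx
    obtain ⟨K, hK⟩ := hd.bounded_above_of_compact_support hdc
    have hi2 : Integrable (fun x => fderiv ℝ φ x v * f x) := by
      have h3 : IntegrableOn (fun x => fderiv ℝ φ x v * f x) (ball (0 : E n) 1) :=
        hfi.bdd_mul hd.aestronglyMeasurable (Eventually.of_forall hK)
      refine (integrableOn_iff_integrable_of_support_subset ?_).1 h3
      intro x hx
      by_contra hxb
      apply hx
      have h4 : x ∉ tsupport φ := fun h5 => hxb (hφ.2.2 h5)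
      have h5 : fderiv ℝ φ x = 0 := by
        have h6 := support_fderiv_subset (𝕜 := ℝ) (f := φ)
        by_contra h7
        exact h4 (h6 h7)
      show fderiv ℝ φ x v * f x = 0
      rw [h5, zero_apply, zero_mul]
    have h7 : ∀ x, fderiv ℝ φ x v * (f x - c) = fderiv ℝ φ x v * f x - c * fderiv ℝ φ x v :=
      fun x => by ring
    simp_rw [h7]
    rw [integral_sub hi2 (hi1.const_mul c), integral_const_mul,
      integral_fderiv_zero hφ.1 hφ.2.1 v, mul_zero, sub_zero]
    exact h.wg φ hφ v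

/-- The L¹ norm of the gradient, when the energy is small. -/
theorem int_norm_le {n : ℕ} {D : E n → E n}
    (hD : MemLp D 2 (volume.restrict (ball (0 : E n) 1))) {e : ℝ} (he : 0 ≤ e)
    (h : ∫ x in ball (0 : E n) 1, ‖D x‖ ^ 2 ≤ e ^ 2) :
    ∫ x in ball (0 : E n) 1, ‖D x‖ ≤ ((volume : Measure (E n)).real (ball 0 1) + 1) / 2 * e := by
  have : IsFiniteMeasure (volume.restrict (ball (0 : E n) 1)) :=
    ⟨by rw [Measure.restrict_apply_univ]; exact measure_ball_lt_top⟩
  have hv : 0 ≤ (volume : Measure (E n)).real (ball 0 1) := measureReal_nonneg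
  have hi1 : Integrable (fun x => ‖D x‖) (volume.restrict (ball (0 : E n) 1)) :=
    (hD.integrable (by norm_num)).norm
  have hi2 : Integrable (fun x => ‖D x‖ ^ 2) (volume.restrict (ball (0 : E n) 1)) :=
    (memLp_two_iff_integrable_sq_norm hD.1).1 hD
  have key : ∀ t : ℝ, 0 < t → e ≤ t → ∫ x in ball (0 : E n) 1, ‖D x‖ ≤
      ((volume : Measure (E n)).real (ball 0 1) + 1) / 2 * t := by
    intro t ht het
    have h1 : ∫ x in ball (0 : E n) 1, ‖D x‖ ≤
        ∫ x in ball (0 : E n) 1, (t / 2 + (2 * t)⁻¹ * ‖D x‖ ^ 2) := by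
      refine integral_mono hi1 ((integrable_const _).add (hi2.const_mul _)) fun x => ?_
      have h2 : 0 ≤ (2 * t)⁻¹ * (t - ‖D x‖) ^ 2 := by positivity
      have h3 : (2 * t)⁻¹ * (t - ‖D x‖) ^ 2 = t / 2 + (2 * t)⁻¹ * ‖D x‖ ^ 2 - ‖D x‖ := by
        field_simp
        ring
      show ‖D x‖ ≤ t / 2 + (2 * t)⁻¹ * ‖D x‖ ^ 2
      linarith
    refine h1.trans ?_
    rw [integral_add (integrable_const _) (hi2.const_mul _), integral_const, integral_const_mul,
      measureReal_restrict_apply_univ, smul_eq_mul]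
    have h4 : (2 * t)⁻¹ * ∫ x in ball (0 : E n) 1, ‖D x‖ ^ 2 ≤ t / 2 := by
      have h5 : (2 * t)⁻¹ * ∫ x in ball (0 : E n) 1, ‖D x‖ ^ 2 ≤ (2 * t)⁻¹ * t ^ 2 := by
        refine mul_le_mul_of_nonneg_left (h.trans ?_) (by positivity)
        exact pow_le_pow_left₀ he het 2
      refine h5.trans (le_of_eq ?_)
      field_simp
    nlinarith
  rcases he.eq_or_lt with h0 | h0
  · rw [← h0, mul_zero]
    refine le_of_forall_pos_le_add fun ε hε => ?_
    have hK : 0 < ((volume : Measure (E n)).real (ball 0 1) + 1) / 2 := by linarith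
    have h1 := key (ε / (((volume : Measure (E n)).real (ball 0 1) + 1) / 2))
      (div_pos hε hK) (by rw [← h0]; exact (div_pos hε hK).le)
    rw [mul_div_cancel₀ _ hK.ne'] at h1
    linarith
  · exact key e h0 le_rfl

/-- The cutoff function vanishes off the closed ball. -/
theorem cf_off {n : ℕ} {ζ : E n → ℝ} {B : ℝ} (hζ : Cf ζ B) (f : E n → ℝ) (D : E n → E n)
    (x : E n) (hx : x ∉ closedBall (0 : E n) (7 / 8)) :
    ζ x * f x = 0 ∧ dm ζ f D x = 0 := by
  have h1 : x ∉ tsupport ζ := fun h => hx (hζ.sp h)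
  have h2 : ζ x = 0 := image_eq_zero_of_notMem_tsupport h1
  have h3 : fderiv ℝ ζ x = 0 := by
    by_contra h4
    exact h1 (support_fderiv_subset (𝕜 := ℝ) (f := ζ) h4)
  have h4 : gradient ζ x = 0 := by
    unfold gradient
    rw [h3, map_zero]
  refine ⟨by rw [h2, zero_mul], ?_⟩
  unfold dm
  rw [h2, h4, zero_smul, smul_zero, add_zero]

/-- The gradient of the cutoff function is bounded. -/
theorem cf_grad {n : ℕ} {ζ : E n → ℝ} {B : ℝ} (hζ : Cf ζ B) (x : E n) :
    ‖gradient ζ x‖ ≤ B := by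
  unfold gradient
  rw [LinearIsometryEquiv.norm_map]
  exact hζ.gr x

/-- **The energy of the cut off function.** -/
theorem pf_POB (hS : T_SMW) (hE : T_EXT) (hP : T_POI) : T_POB := by
  intro n ζ B hB hζ
  obtain ⟨CP, hCP, hPn⟩ := hP n
  have : IsFiniteMeasure (volume.restrict (ball (0 : E n) 1)) :=
    ⟨by rw [Measure.restrict_apply_univ]; exact measure_ball_lt_top⟩
  have hv : 0 ≤ (volume : Measure (E n)).real (ball 0 1) := measureReal_nonneg
  refine ⟨2 + 4 * B ^ 2 * (CP * (((volume : Measure (E n)).real (ball 0 1) + 1) / 2)),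
    by positivity, ?_⟩
  intro f D e he he1 hW hf hD
  set S : Set (E n) := closedBall (0 : E n) (15 / 16) with hSdef
  have hSb : S ⊆ ball (0 : E n) 1 := closedBall_subset_ball (by norm_num)
  have hSm : MeasurableSet S := isClosed_closedBall.measurableSet
  have hSr : ∀ᵐ x ∂(volume.restrict S), |f x| ≤ 1 := ae_restrict_of_ae_restrict_of_subset hSb hf
  have : IsFiniteMeasure (volume.restrict S) :=
    ⟨by rw [Measure.restrict_apply_univ]; exact measure_closedBall_lt_top⟩
  have hmu : volume.restrict S ≤ volume.restrict (ball (0 : E n) 1) :=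
    Measure.restrict_mono hSb le_rfl
  set c : ℝ := ⨍ z in S, f z with hc
  have hc1 : |c| ≤ 1 := by
    rw [hc, setAverage_eq, smul_eq_mul, abs_mul, abs_inv, abs_of_nonneg measureReal_nonneg]
    have h1 : |∫ x in S, f x| ≤ 1 * (volume.restrict S).real univ := by
      have h2 := norm_integral_le_of_norm_le_const (μ := volume.restrict S) (f := f) (C := 1) hSr
      exact h2
    rw [measureReal_restrict_apply_univ, one_mul] at h1
    have h3 : ((volume : Measure (E n)).real S)⁻¹ * |∫ x in S, f x| ≤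
        ((volume : Measure (E n)).real S)⁻¹ * (volume : Measure (E n)).real S :=
      mul_le_mul_of_nonneg_left h1 (inv_nonneg.2 measureReal_nonneg)
    exact h3.trans inv_mul_le_one
  have hWc : WB (ball (0 : E n) 1) (fun x => f x - c) D := wb_sub_const hW c
  refine ⟨c, hE n (7 / 8) _ _ (by norm_num) (by norm_num) (hS n 0 1 ζ _ D hζ.sm hWc)
    (cf_off hζ _ D), ?_⟩
  have hoff : ∀ x, x ∉ S → ‖dm ζ (fun x => f x - c) D x‖ ^ 2 = 0 := by
    intro x hx
    have h1 : x ∉ closedBall (0 : E n) (7 / 8) := fun h =>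
      hx (closedBall_subset_closedBall (by norm_num) h)
    rw [(cf_off hζ (fun x => f x - c) D x h1).2, norm_zero]
    norm_num
  rw [← setIntegral_eq_integral_of_forall_compl_eq_zero hoff]
  have hi2 : Integrable (fun x => ‖D x‖ ^ 2) (volume.restrict (ball (0 : E n) 1)) :=
    (memLp_two_iff_integrable_sq_norm hW.d2.1).1 hW.d2
  have hi2S : Integrable (fun x => ‖D x‖ ^ 2) (volume.restrict S) := hi2.mono_measure hmu
  have hi1 : Integrable (fun x => ‖D x‖) (volume.restrict (ball (0 : E n) 1)) :=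
    (hW.d2.integrable (by norm_num)).norm
  have hi3 : Integrable (fun x => |f x - c|) (volume.restrict S) := by
    refine Integrable.of_bound (C := 2) ?_ ?_
    · exact ((hW.ms.mono_measure hmu).sub aestronglyMeasurable_const).norm
    · filter_upwards [hSr] with x hx
      rw [Real.norm_eq_abs, abs_abs]
      exact (abs_sub _ _).trans (by linarith)
  have h1 : ∫ x in S, ‖dm ζ (fun x => f x - c) D x‖ ^ 2 ≤
      ∫ x in S, (2 * ‖D x‖ ^ 2 + 4 * B ^ 2 * |f x - c|) := by
    refine integral_mono_of_nonneg (Eventually.of_forall fun x => by positivity)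
      ((hi2S.const_mul 2).add (hi3.const_mul _)) ?_
    filter_upwards [hSr] with x hx
    have h2 : |f x - c| ≤ 2 := (abs_sub _ _).trans (by linarith)
    have h3 : ‖dm ζ (fun x => f x - c) D x‖ ≤ ‖D x‖ + |f x - c| * B := by
      unfold dm
      refine (norm_add_le _ _).trans ?_
      rw [norm_smul, norm_smul, Real.norm_eq_abs, Real.norm_eq_abs]
      have h4 : |ζ x| ≤ 1 := by
        rw [abs_of_nonneg (hζ.bd x).1]
        exact (hζ.bd x).2
      have h5 : |ζ x| * ‖D x‖ ≤ 1 * ‖D x‖ := mul_le_mul_of_nonneg_right h4 (norm_nonneg _)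
      have h6 : |f x - c| * ‖gradient ζ x‖ ≤ |f x - c| * B :=
        mul_le_mul_of_nonneg_left (cf_grad hζ x) (abs_nonneg _)
      linarith
    have h7 : ‖dm ζ (fun x => f x - c) D x‖ ^ 2 ≤ (‖D x‖ + |f x - c| * B) ^ 2 :=
      pow_le_pow_left₀ (norm_nonneg _) h3 2
    have h8 : (‖D x‖ + |f x - c| * B) ^ 2 ≤ 2 * ‖D x‖ ^ 2 + 2 * (|f x - c| * B) ^ 2 := by
      nlinarith [sq_nonneg (‖D x‖ - |f x - c| * B)]
    have h9 : |f x - c| * |f x - c| ≤ 2 * |f x - c| :=
      mul_le_mul_of_nonneg_right h2 (abs_nonneg _)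
    have h10 : 2 * (|f x - c| * B) ^ 2 ≤ 4 * B ^ 2 * |f x - c| := by
      have h11 : B ^ 2 * (|f x - c| * |f x - c|) ≤ B ^ 2 * (2 * |f x - c|) :=
        mul_le_mul_of_nonneg_left h9 (sq_nonneg B)
      nlinarith
    show ‖dm ζ (fun x => f x - c) D x‖ ^ 2 ≤ 2 * ‖D x‖ ^ 2 + 4 * B ^ 2 * |f x - c|
    linarith
  refine h1.trans ?_
  rw [integral_add (hi2S.const_mul 2) (hi3.const_mul _), integral_const_mul, integral_const_mul]
  have h12 : ∫ x in S, ‖D x‖ ^ 2 ≤ e ^ 2 :=
    (setIntegral_mono_set hi2 (Eventually.of_forall fun x => by positivity)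
      (Eventually.of_forall hSb)).trans hD
  have h13 : ∫ x in S, |f x - c| ≤
      CP * (((volume : Measure (E n)).real (ball 0 1) + 1) / 2 * e) := by
    have h14 := hPn f D hW 0 (15 / 16) (by norm_num) (by rw [norm_zero]; norm_num)
    have h15 : ∫ x in S, ‖D x‖ ≤ ((volume : Measure (E n)).real (ball 0 1) + 1) / 2 * e :=
      (setIntegral_mono_set hi1 (Eventually.of_forall fun x => norm_nonneg _)
        (Eventually.of_forall hSb)).trans (int_norm_le hW.d2 he hD)
    have h16 : 0 ≤ ∫ x in S, ‖D x‖ := integral_nonneg fun x => norm_nonneg _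
    refine h14.trans ?_
    have h17 : CP * (15 / 16) ≤ CP := by linarith
    calc CP * (15 / 16) * ∫ x in S, ‖D x‖ ≤ CP * ∫ x in S, ‖D x‖ :=
          mul_le_mul_of_nonneg_right h17 h16
      _ ≤ _ := mul_le_mul_of_nonneg_left h15 hCP
  have h18 : e ^ 2 ≤ e := by nlinarith
  have h19 : 4 * B ^ 2 * ∫ x in S, |f x - c| ≤
      4 * B ^ 2 * (CP * (((volume : Measure (E n)).real (ball 0 1) + 1) / 2 * e)) :=
    mul_le_mul_of_nonneg_left h13 (by positivity)
  calc (2 * ∫ x in S, ‖D x‖ ^ 2) + 4 * B ^ 2 * ∫ x in S, |f x - c| ≤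
        2 * e + 4 * B ^ 2 * (CP * (((volume : Measure (E n)).real (ball 0 1) + 1) / 2 * e)) := by
        linarith
    _ = _ := by ring

end

end Pool.Agent.H36.RG
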