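import Pool.Agent.H90.RG.Targets2
import Pool.Agent.H89.RG.GSYH

/-!
# The equation of stationary harmonic maps, with a local smooth form of the right side
-/

set_option autoImplicit false

namespace Pool.Agent.H36.RG

open MeasureTheory Metric Set Filter Topology Pool.Agent.H87.SN Pool.Agent.H90.RG
open Pool.Agent.H14.RG (IsClosedSubmanifold row)
open Pool.Agent.H89.RG (int_test tst_fderiv coord)
open scoped ContDiff RealInnerProductSpace ENNReal

noncomputable section

/-- Expansion of a vector in the standard basis. -/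
theorem vec_sum {m : ℕ} (w : E m) : w = ∑ b, w b • (bv b : E m) := by
  ext β
  rw [WithLp.ofLp_sum, Finset.sum_apply]
  simp [bv]

/-- Expansion of a bilinear map. -/
theorem bil_sum {m : ℕ} (B : E m →L[ℝ] E m →L[ℝ] E m) (w : E m) (a : Fin m) :
    (B w w) a = ∑ b, ∑ c, (B (bv b) (bv c)) a * w b * w c := by
  have h1 : B w w = ∑ b, ∑ c, (w b * w c) • B (bv b) (bv c) := by
    have h2 : ∀ v : E m, B w v = ∑ b, w b • B (bv b) v := by
      intro v
      have h3 : B w = ∑ b, w b • B (bv b) := by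
        conv_lhs => rw [vec_sum w]
        rw [map_sum]
        exact Finset.sum_congr rfl fun b _ => map_smul _ _ _
      rw [h3, sum_apply]
      rfl
    have h4 : ∀ L : E m →L[ℝ] E m, L w = ∑ c, w c • L (bv c) := by
      intro L
      conv_lhs => rw [vec_sum w]
      rw [map_sum]
      exact Finset.sum_congr rfl fun c _ => map_smul _ _ _
    rw [h2]
    refine Finset.sum_congr rfl fun b _ => ?_
    rw [h4, Finset.smul_sum]
    exact Finset.sum_congr rfl fun c _ => smul_smul _ _ _
  rw [h1, WithLp.ofLp_sum, Finset.sum_apply]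
  refine Finset.sum_congr rfl fun b _ => ?_
  rw [WithLp.ofLp_sum, Finset.sum_apply]
  refine Finset.sum_congr rfl fun c _ => ?_
  rw [PiLp.smul_apply, smul_eq_mul]
  ring

/-- The second fundamental form along the map is measurable. -/
theorem aesm_comp {n m : ℕ} {N : Set (E m)} {A : E m → E m →L[ℝ] E m →L[ℝ] E m}
    (hN : IsCompact N) (hA : ContinuousOn A N) {u : E n → E m} {μ : Measure (E n)}
    (hu : AEStronglyMeasurable u μ) (huN : ∀ᵐ x ∂μ, u x ∈ N) :
    AEStronglyMeasurable (fun x => A (u x)) μ := by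
  have hm : AEMeasurable u μ := hu.aemeasurable
  have h1 : ∀ᵐ q ∂(Measure.map u μ), q ∈ N :=
    (ae_map_iff hm hN.isClosed.measurableSet).2 huN
  have h2 : AEStronglyMeasurable A (Measure.map u μ) := by
    have h3 : AEStronglyMeasurable A ((Measure.map u μ).restrict N) :=
      hA.aestronglyMeasurable hN.isClosed.measurableSet
    rw [Measure.restrict_eq_self_of_ae_mem h1] at h3
    exact h3
  exact h2.comp_aemeasurable hm

/-- **The equation of stationary harmonic maps.** -/
theorem pf_SOH (hR : T_ROW) (hS : Pool.Agent.H14.RG.T_SFS) (hT : Pool.Agent.H14.RG.T_TNG) :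
    T_SOH := by
  intro m k N A hN hA
  obtain ⟨C, hC⟩ := hN.compact.exists_bound_of_continuousOn (f := A) hA.continuousOn
  refine ⟨max C 0, le_max_right _ _, ?_⟩
  intro n u G h ρ hρ
  obtain ⟨R1, R2, R3⟩ := hR n m
  have hfm : IsFiniteMeasure (volume.restrict (ball (0 : E n) 2)) :=
    ⟨by rw [Measure.restrict_apply_univ]; exact measure_ball_lt_top⟩
  have hb : ball (0 : E n) ρ ⊆ ball 0 2 := ball_subset_ball hρ
  have hmu : volume.restrict (ball (0 : E n) ρ) ≤ volume.restrict (ball (0 : E n) 2) :=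
    Measure.restrict_mono hb le_rfl
  have hu1 : IntegrableOn u (ball (0 : E n) 2) := h.w12.memLp.integrable (by norm_num)
  have hG1 : IntegrableOn G (ball (0 : E n) 2) := h.w12.memLp_deriv.integrable (by norm_num)
  have hGv : ∀ v : E n, IntegrableOn (fun x => G x v) (ball (0 : E n) 2) := fun v =>
    (ContinuousLinearMap.apply ℝ (E m) v).integrable_comp hG1
  have hG2 : IntegrableOn (fun x => ‖G x‖ ^ 2) (ball (0 : E n) 2) :=
    MemLp.integrable_norm_pow (p := 2) h.w12.memLp_deriv two_ne_zero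
  -- the bound
  have hff : ∀ x, u x ∈ N → ‖ff A u G x‖ ≤ max C 0 * ∑ a, ‖row (G x) a‖ ^ 2 := by
    intro x hx
    rw [(R1 (G x)).1]
    unfold ff nsq
    rw [Finset.mul_sum]
    refine (norm_sum_le _ _).trans (Finset.sum_le_sum fun i _ => ?_)
    have h1 : ‖A (u x)‖ ≤ max C 0 := (hC _ hx).trans (le_max_left _ _)
    have h2 : ‖A (u x) (G x (bv i)) (G x (bv i))‖ ≤
        ‖A (u x)‖ * ‖G x (bv i)‖ * ‖G x (bv i)‖ := (A (u x)).le_opNorm₂ _ _
    refine h2.trans ?_
    rw [mul_assoc, ← sq]
    exact mul_le_mul_of_nonneg_right h1 (by positivity)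
  have hffm : AEStronglyMeasurable (ff A u G) (volume.restrict (ball (0 : E n) 2)) := by
    have h1 := aesm_comp hN.compact hA.continuousOn h.w12.memLp.1 h.mem
    have h2 : ∀ i : Fin n, AEStronglyMeasurable
        (fun x => A (u x) (G x (bv i)) (G x (bv i))) (volume.restrict (ball (0 : E n) 2)) := by
      intro i
      have h3 : AEStronglyMeasurable (fun x => G x (bv i))
        (volume.restrict (ball (0 : E n) 2)) := (hGv (bv i)).1
      have h4 : AEStronglyMeasurable (fun x => A (u x) (G x (bv i)))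
          (volume.restrict (ball (0 : E n) 2)) :=
        (isBoundedBilinearMap_apply (𝕜 := ℝ) (E := E m)
          (F := E m →L[ℝ] E m)).continuous.comp_aestronglyMeasurable (h1.prodMk h3)
      exact (isBoundedBilinearMap_apply (𝕜 := ℝ) (E := E m)
          (F := E m)).continuous.comp_aestronglyMeasurable (h4.prodMk h3)
    have h5 : ff A u G = fun x => ∑ i : Fin n, A (u x) (G x (bv i)) (G x (bv i)) := rfl
    rw [h5]
    exact Finset.aestronglyMeasurable_fun_sum _ fun i _ => h2 i
  have hffi : IntegrableOn (ff A u G) (ball (0 : E n) 2) := by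
    refine Integrable.mono' (hG2.const_mul (max C 0 * (m * (n : ℝ) ^ 2))) hffm ?_
    filter_upwards [h.mem] with x hx
    refine (hff x hx).trans ?_
    rw [mul_assoc]
    refine mul_le_mul_of_nonneg_left ?_ (le_max_right _ _)
    have h1 : ∀ a ∈ (Finset.univ : Finset (Fin m)), ‖row (G x) a‖ ^ 2 ≤
        (n : ℝ) ^ 2 * ‖G x‖ ^ 2 := by
      intro a _
      rw [← mul_pow]
      exact pow_le_pow_left₀ (norm_nonneg _) ((R1 (G x)).2.2.2.2 a) 2
    have h2 := Finset.sum_le_sum h1
    rw [Finset.sum_const, Finset.card_univ, Fintype.card_fin, nsmul_eq_mul, ← mul_assoc] at h2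
    exact h2
  have hcoi : ∀ {F : E n → E m}, IntegrableOn F (ball (0 : E n) 2) → ∀ a : Fin m,
      IntegrableOn (fun x => F x a) (ball (0 : E n) ρ) := fun {F} hF a =>
    ((EuclideanSpace.proj a : E m →L[ℝ] ℝ).integrable_comp hF).mono_measure hmu
  have hmem : ∀ᵐ x ∂(volume.restrict (ball (0 : E n) ρ)), u x ∈ N :=
    ae_restrict_of_ae_restrict_of_subset hb h.mem
  refine ⟨⟨fun a => hcoi hu1 a, fun a => R3 G _ a (h.w12.memLp_deriv.mono_measure hmu),
    fun a => hcoi hffi a, ?_, ?_⟩, ?_, ?_⟩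
  · intro a ψ hψ i
    have hψ' : Pool.Agent.H48.RG.Tst (ball (0 : E n) 2) ψ :=
      ⟨hψ.1, hψ.2.1, hψ.2.2.trans hb⟩
    have h1 := h.w12.weak ψ hψ' (bv i)
    obtain ⟨f1, f2, f3⟩ := tst_fderiv hψ' (bv i)
    have i1 : Integrable (fun x => (fderiv ℝ ψ x (bv i)) • u x) := int_test f1 f2 f3 hu1
    have i2 : Integrable (fun x => ψ x • G x (bv i)) :=
      int_test hψ.1.continuous hψ.2.1 ((subset_tsupport _).trans hψ'.2.2) (hGv _)
    have h2 : (∫ x, (fderiv ℝ ψ x (bv i)) • u x) a = (-∫ x, ψ x • G x (bv i)) a := by rw [h1]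
    rw [PiLp.neg_apply, coord i1, coord i2] at h2
    calc ∫ x, u x a * Pool.Agent.H86.RG.dd i ψ x
        = ∫ x, ((fderiv ℝ ψ x (bv i)) • u x) a := by
          congr 1
          funext x
          rw [PiLp.smul_apply, smul_eq_mul, mul_comm]
          rfl
      _ = -∫ x, (ψ x • G x (bv i)) a := h2
      _ = -∫ x, row (G x) a i * ψ x := by
          congr 2
          funext x
          rw [PiLp.smul_apply, smul_eq_mul, (R1 (G x)).2.2.2.1 a i, mul_comm]
  · intro a ψ hψ
    have hψ' : Pool.Agent.H48.RG.Tst (ball (0 : E n) 2) ψ :=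
      ⟨hψ.1, hψ.2.1, hψ.2.2.trans hb⟩
    have h1 := h.harmonic ψ hψ'
    have i1 : Integrable (fun x => ∑ α : Fin n, (fderiv ℝ ψ x (bv α)) • G x (bv α)) := by
      refine integrable_finsetSum _ fun α _ => ?_
      obtain ⟨f1, f2, f3⟩ := tst_fderiv hψ' (bv α)
      exact int_test f1 f2 f3 (hGv _)
    have i2 : Integrable (fun x => ψ x • ff A u G x) :=
      int_test hψ.1.continuous hψ.2.1 ((subset_tsupport _).trans hψ'.2.2) hffi
    have h2 : (∫ x, ∑ α : Fin n, (fderiv ℝ ψ x (bv α)) • G x (bv α)) a =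
        (∫ x, ψ x • ff A u G x) a := by rw [h1]; rfl
    rw [coord i1, coord i2] at h2
    calc ∫ x, ∑ i : Fin n, Pool.Agent.H86.RG.dd i ψ x * row (G x) a i
        = ∫ x, (∑ α : Fin n, (fderiv ℝ ψ x (bv α)) • G x (bv α)) a := by
          congr 1
          funext x
          rw [WithLp.ofLp_sum, Finset.sum_apply]
          refine Finset.sum_congr rfl fun α _ => ?_
          rw [PiLp.smul_apply, smul_eq_mul, (R1 (G x)).2.2.2.1 a α]
          rfl
      _ = ∫ x, (ψ x • ff A u G x) a := h2
      _ = ∫ x, ψ x * ff A u G x a := rfl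
  · intro p hp
    obtain ⟨V, B, hV, hpV, hB, hAB⟩ := hS m k N A hN hA p hp
    refine ⟨V, fun a b c q => (B q (bv b) (bv c)) a, hV, hpV, fun a b c => ?_, ?_⟩
    · have h1 : ContDiff ℝ ∞ (fun q => B q (bv b) (bv c)) :=
        (hB.clm_apply contDiff_const).clm_apply contDiff_const
      exact ((EuclideanSpace.proj a : E m →L[ℝ] ℝ).contDiff.comp h1).contDiffOn
    · have h2 : ∀ᵐ x ∂(volume.restrict (ball (0 : E n) ρ)), ∀ v,
          IsTangent N (u x) (G x v) :=
        ae_restrict_of_ae_restrict_of_subset hb (hT n m k N u G hN h.w12 h.mem)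
      filter_upwards [h2, hmem] with x hx hxN hxV a
      show (∑ i : Fin n, A (u x) (G x (bv i)) (G x (bv i))) a = _
      rw [WithLp.ofLp_sum, Finset.sum_apply]
      refine Finset.sum_congr rfl fun i _ => ?_
      rw [hAB (u x) hxN hxV _ (hx (bv i)), bil_sum]
      refine Finset.sum_congr rfl fun b _ => Finset.sum_congr rfl fun c _ => ?_
      rw [(R1 (G x)).2.2.2.1 b i, (R1 (G x)).2.2.2.1 c i]
  · filter_upwards [hmem] with x hx
    exact hff x hx

end

end Pool.Agent.H36.RG
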